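import Pool.Graph.R_pool_sql_team_ae5b0c61.H63.HA6

set_option autoImplicit false

namespace Pool.Agent.Results.MP_dc5bfb_al.HeisenbergSqrt

open Pool.Agent.H63.HA

/-- `X` is a subshift over the alphabet `{0, …, k-1}` (closedness in the product topology is stated
through central windows). -/
structure IsSubshift {k : ℕ} (X : Set (ℤ → Fin k)) : Prop where
  nonempty : X.Nonempty
  closed : ∀ x : ℤ → Fin k, (∀ N : ℕ, ∃ y ∈ X, ∀ i : ℤ, |i| ≤ (N : ℤ) → y i = x i) → x ∈ X
  shift : ∀ x ∈ X, (fun n : ℤ => x (n + 1)) ∈ X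
  unshift : ∀ x ∈ X, (fun n : ℤ => x (n - 1)) ∈ X

/-- The permutation `φ` of `X` commutes with the shift and is given by a local rule. -/
def IsBlockMap {k : ℕ} {X : Set (ℤ → Fin k)} (φ : Equiv.Perm X) : Prop :=
  (∀ x y : X, (∀ n : ℤ, y.1 n = x.1 (n + 1)) → ∀ n : ℤ, (φ y).1 n = (φ x).1 (n + 1)) ∧
  ∃ r : ℕ, ∀ x y : X, (∀ i : ℤ, |i| ≤ (r : ℤ) → x.1 i = y.1 i) → (φ x).1 0 = (φ y).1 0

/-- `g` is a product of at most `L` elements of `S` and inverses of elements of `S`. -/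
def WordLE {G : Type} [Group G] (S : Set G) (g : G) (L : ℕ) : Prop :=
  ∃ l : List G, (∀ s ∈ l, s ∈ S ∨ s⁻¹ ∈ S) ∧ l.prod = g ∧ l.length ≤ L

/-- `G` has a left-invariant finitely additive probability mean (is amenable). -/
def Amenable (G : Type) [Group G] : Prop :=
  ∃ m : Set G → ℝ, (∀ A, 0 ≤ m A) ∧ m Set.univ = 1 ∧
    (∀ A B, Disjoint A B → m (A ∪ B) = m A + m B) ∧
    ∀ (g : G) (A : Set G), m ((fun h : G => g * h) '' A) = m A

/-- The integer Heisenberg group: triples with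
`(a, b, c) (x, y, z) = (a + x, b + y, c + z + a y)`. -/
abbrev Heis : Type := Hs ℤ

/-- The standard generators `x`, `y` together with the central element `z`. -/
def gens : Set Heis := {mk 1 0 0, mk 0 1 0, mk 0 0 1}

theorem upper (n : ℕ) : WordLE gens (mk 0 0 1 ^ n) (6 * Nat.sqrt n) := by
  have h1 := Nat.sqrt_le n
  have h2 := Nat.lt_succ_sqrt n
  generalize n.sqrt = k at *
  obtain ⟨r, rfl⟩ := Nat.exists_eq_add_of_le h1
  refine ⟨.replicate k (mk 1 0 0) ++ .replicate k (mk 0 1 0) ++ .replicate k (mk (-1) 0 0) ++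
    .replicate k (mk 0 (-1) 0) ++ .replicate r (mk 0 0 1), fun s hs => ?_, ?_, ?_⟩
  · simp only [List.mem_append, List.mem_replicate] at hs
    rcases hs with (((h | h) | h) | h) | h
    · exact Or.inl (by simp [gens, h.2])
    · exact Or.inl (by simp [gens, h.2])
    · exact Or.inr (by simp [gens, h.2, mk_inv])
    · exact Or.inr (by simp [gens, h.2, mk_inv])
    · exact Or.inl (by simp [gens, h.2])
  · simp [mk_pow, mk_mul, add_comm]
  · have : r ≤ 2 * k := by nlinarith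
    simp only [List.length_append, List.length_replicate]
    omega

theorem bound (l : List Heis) (h : ∀ s ∈ l, s ∈ gens ∨ s⁻¹ ∈ gens) :
    |l.prod.2.1| ≤ l.length ∧ |l.prod.2.2| ≤ (l.length : ℤ) ^ 2 := by
  induction l with
  | nil => exact ⟨le_refl _, by show |(0 : ℤ)| ≤ 0 ^ 2; simp⟩
  | cons s l ih =>
    obtain ⟨h1, h2⟩ := ih fun t ht => h t (List.mem_cons_of_mem _ ht)
    have h3 : (s.1 = 0 ∧ |s.2.1| + |s.2.2| ≤ 1) ∨ (|s.1| ≤ 1 ∧ s.2.1 = 0 ∧ s.2.2 = 0) := by
      have h0 := h s List.mem_cons_self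
      have key : ∀ t : Heis, t ∈ gens → (t.1 = 0 ∧ t.2.1 = 1 ∧ t.2.2 = 0) ∨
          (t.1 = 0 ∧ t.2.1 = 0 ∧ t.2.2 = 1) ∨ (t.1 = 1 ∧ t.2.1 = 0 ∧ t.2.2 = 0) := by
        rintro t (rfl | rfl | rfl)
        · exact Or.inr (Or.inr ⟨rfl, rfl, rfl⟩)
        · exact Or.inl ⟨rfl, rfl, rfl⟩
        · exact Or.inr (Or.inl ⟨rfl, rfl, rfl⟩)
      rcases h0 with h0 | h0
      · rcases key s h0 with ⟨a, b, c⟩ | ⟨a, b, c⟩ | ⟨a, b, c⟩ <;> rw [a, b, c] <;> norm_num
      · obtain ⟨a, b, c⟩ := s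
        have := key _ h0
        change (-a = 0 ∧ -b = 1 ∧ a * b - c = 0) ∨ (-a = 0 ∧ -b = 0 ∧ a * b - c = 1) ∨
          (-a = 1 ∧ -b = 0 ∧ a * b - c = 0) at this
        show (a = 0 ∧ |b| + |c| ≤ 1) ∨ (|a| ≤ 1 ∧ b = 0 ∧ c = 0)
        rcases this with ⟨h1, h2, h3⟩ | ⟨h1, h2, h3⟩ | ⟨h1, h2, h3⟩
        · obtain rfl : a = 0 := by omega
          obtain rfl : b = -1 := by omega
          obtain rfl : c = 0 := by omega
          norm_num
        · obtain rfl : a = 0 := by omega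
          obtain rfl : b = 0 := by omega
          obtain rfl : c = -1 := by omega
          norm_num
        · obtain rfl : a = -1 := by omega
          obtain rfl : b = 0 := by omega
          obtain rfl : c = 0 := by omega
          norm_num
    rw [List.prod_cons, List.length_cons]
    push_cast
    show |s.2.1 + l.prod.2.1| ≤ (l.length : ℤ) + 1 ∧
      |s.2.2 + l.prod.2.2 + s.1 * l.prod.2.1| ≤ ((l.length : ℤ) + 1) ^ 2
    generalize l.prod.2.1 = b at *
    generalize l.prod.2.2 = c at *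
    generalize (l.length : ℤ) = n at *
    generalize s.1 = x at *
    generalize s.2.1 = y at *
    generalize s.2.2 = z at *
    have hn : 0 ≤ n := (abs_nonneg b).trans h1
    rcases h3 with ⟨rfl, h3⟩ | ⟨h3, rfl, rfl⟩
    · have := abs_nonneg y
      have := abs_nonneg z
      refine ⟨(abs_add_le _ _).trans (by omega), ?_⟩
      rw [zero_mul, add_zero]
      exact (abs_add_le _ _).trans (by nlinarith)
    · refine ⟨(abs_add_le _ _).trans (by rw [abs_zero]; omega), ?_⟩
      rw [zero_add]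
      refine (abs_add_le _ _).trans ?_
      rw [abs_mul]
      nlinarith [abs_nonneg b, abs_nonneg x]

theorem lower {n L : ℕ} (h : WordLE gens (mk 0 0 1 ^ n) L) : n ≤ L ^ 2 := by
  obtain ⟨l, h1, h2, h3⟩ := h
  have h4 := (bound l h1).2
  rw [h2, mk_pow 0 0 1 rfl n] at h4
  have h5 : |(n : ℤ) * 1| ≤ (l.length : ℤ) ^ 2 := h4
  rw [mul_one, abs_of_nonneg (Int.natCast_nonneg n)] at h5
  have h6 : n ≤ l.length ^ 2 := by exact_mod_cast h5
  exact h6.trans (Nat.pow_le_pow_left h3 2)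

theorem gens_closure : Subgroup.closure gens = ⊤ := by
  rw [eq_top_iff]
  rintro ⟨a, b, c⟩ -
  have hz : ∀ (p : ℤ → Heis) , p 0 = 1 → (∀ m n, p (m + n) = p m * p n) → p 1 ∈ gens →
      ∀ n, p n ∈ Subgroup.closure gens := fun p h0 hp h1 n => by
    have h2 : p (-1) = (p 1)⁻¹ := by
      refine eq_inv_of_mul_eq_one_left ?_
      rw [← hp]; exact h0
    induction n using Int.induction_on with
    | zero => exact h0 ▸ Subgroup.one_mem _
    | succ n ih => rw [hp]; exact Subgroup.mul_mem _ ih (Subgroup.subset_closure h1)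
    | pred n ih =>
      rw [sub_eq_add_neg, hp, h2]
      exact Subgroup.mul_mem _ ih (Subgroup.inv_mem _ (Subgroup.subset_closure h1))
  have h1 := hz (fun n => mk n 0 0) rfl (by simp [mk_mul]) (by simp [gens]) a
  have h2 := hz (fun n => mk 0 n 0) rfl (by simp [mk_mul]) (by simp [gens]) b
  have h3 := hz (fun n => mk 0 0 n) rfl (by simp [mk_mul]) (by simp [gens]) c
  show mk a b c ∈ Subgroup.closure gens
  simpa [mk_mul] using Subgroup.mul_mem _ (Subgroup.mul_mem _ h3 h2) h1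

/-- The integer Heisenberg group embeds, as an amenable group of automorphisms, in the
automorphism group of a subshift, and its central element `z` is quadratically distorted. -/
theorem result :
    ∃ (k : ℕ) (X : Set (ℤ → Fin k)) (ρ : Heis →* Equiv.Perm X),
      IsSubshift X ∧ Function.Injective ρ ∧ (∀ h, IsBlockMap (ρ h)) ∧ Amenable ρ.range ∧
      Subgroup.closure gens = ⊤ ∧
      ∀ n : ℕ, WordLE gens ((mk 0 0 1 : Heis) ^ n) (6 * Nat.sqrt n) ∧
        ∀ L : ℕ, WordLE gens ((mk 0 0 1 : Heis) ^ n) L → n ≤ L ^ 2 := by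
  obtain ⟨k, h⟩ := main
  obtain ⟨X, h1, h2, -, h4, ρ, h5, h6⟩ := h _ id Function.injective_id
  refine ⟨k, X, ρ, ⟨h1, h2, fun x hx => h4 x hx 1, fun x hx => h4 x hx (-1)⟩, h5, fun g => ?_,
    meanH _ ρ.rangeRestrict_surjective, gens_closure, fun n => ⟨upper n, fun L hL => lower hL⟩⟩
  obtain ⟨F, ⟨a, r, b⟩, e⟩ := h6 g
  exact ⟨fun x y h n => by rw [e, e, funext h, a], r, fun x y h => by rw [e, e, b _ _ h]⟩

end Pool.Agent.Results.MP_dc5bfb_al.HeisenbergSqrt
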